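import Pool.Agent.Lib.MP_0702e0_co.Main

namespace Pool.Agent.Results.MP_0702e0_co.SpiralLowerBound

open Pool.Agent.Lib.MP_0702e0_co

/-- There is exactly one `d > 0` with `cos (2π/7) = tanh (d/2) / tanh d` (the side length `d(7)`
of the regular triangle with angles `2π/7`), and for this `d` the contact number satisfies
`e_d(n) ≥ ⌊7n/2 - √(5n²/4 + 15n - 4)⌋` for every `n ≥ 1`; so the negated form of the question
(strict inequality the other way for some `n ≥ 1`) is false. -/
theorem result :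
    (∃! d : ℝ, 0 < d ∧ Real.cos (2 * Real.pi / 7) = Real.tanh (d / 2) / Real.tanh d) ∧
    ∀ d : ℝ, 0 < d → Real.cos (2 * Real.pi / 7) = Real.tanh (d / 2) / Real.tanh d →
      ∀ n : ℕ, 1 ≤ n →
        ⌊7 / 2 * (n : ℝ) - Real.sqrt (5 / 4 * (n : ℝ) ^ 2 + 15 * n - 4)⌋ ≤
          (contactNumber d n : ℤ) := main

end Pool.Agent.Results.MP_0702e0_co.SpiralLowerBound
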